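import Pool.Agent.Q74.BH.Stm
import Pool.Agent.Q158.Col4.Law

/-! JOB Stage of project BH (helper74): the decomposition of the words at the first `k` odd steps. -/

set_option autoImplicit false

namespace Pool.Agent.Q150.BH

open Finset
open Pool.Agent.Q74.BH
open Pool.Agent.TH930.EBQ (ones wd words cw sum_words_succ ones_append ones_cons_true ones_cons_false mem_words card_words)
open Pool.Agent.H320R2.PD (FW sum_FW_succ sum_FW_zero wwt Wo)
open Pool.Agent.H499R2.ND (GW FW_props)

/-- sum over the words of length `n` -/
noncomputable def Ws (n : ℕ) (Φ : List Bool → ℝ) : ℝ := ∑ v ∈ words n, Φ v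

lemma Ws_nonneg (n : ℕ) {Φ : List Bool → ℝ} (h : ∀ v, 0 ≤ Φ v) : 0 ≤ Ws n Φ := sum_nonneg fun v _ => h v

lemma Ws_succ (n : ℕ) (Φ : List Bool → ℝ) :
    Ws (n + 1) Φ = Ws n (fun v => Φ (true :: v)) + Ws n (fun v => Φ (false :: v)) := by
  unfold Ws
  rw [sum_words_succ, sum_add_distrib]

/-- decomposition at the first one -/
lemma Ws_first (A s : ℕ) {Φ : List Bool → ℝ} (h : ∀ v, 0 ≤ Φ v) :
    ∑ e ∈ Icc 1 A, (if e ≤ s then Ws (s - e) (fun v => Φ (List.replicate (e - 1) false ++ true :: v)) else 0) ≤ Ws s Φ := by
  induction s generalizing A Φ with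
  | zero =>
    have : ∀ e ∈ Icc 1 A, (if e ≤ 0 then Ws (0 - e) (fun v => Φ (List.replicate (e - 1) false ++ true :: v)) else 0) = 0 := by
      intro e he
      rw [mem_Icc] at he
      rw [if_neg (by omega)]
    rw [sum_congr rfl this, sum_const_zero]
    exact Ws_nonneg 0 h
  | succ s ih =>
    rcases A with _ | A
    · simp
      exact Ws_nonneg _ h
    · have h1 : Icc 1 (A + 1) = insert 1 ((Icc 1 A).image (fun e => e + 1)) := by
        ext e
        rw [mem_Icc, mem_insert, mem_image]
        constructor
        · rintro ⟨h1, h2⟩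
          rcases Nat.eq_or_lt_of_le h1 with h3 | h3
          · exact Or.inl h3.symm
          · exact Or.inr ⟨e - 1, by rw [mem_Icc]; omega, by omega⟩
        · rintro (rfl | ⟨e', he', rfl⟩)
          · omega
          · rw [mem_Icc] at he'
            omega
      rw [h1, sum_insert (by
        rw [mem_image]
        rintro ⟨e, he, h⟩
        rw [mem_Icc] at he
        omega), sum_image (fun a _ b _ h => by
          have h' : a + 1 = b + 1 := h
          omega)]
      rw [if_pos (by omega), Ws_succ, show s + 1 - 1 = s by omega]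
      refine add_le_add (le_of_eq ?_) ?_
      · rfl
      · refine le_trans (le_of_eq ?_) (ih A (Φ := fun v => Φ (false :: v)) (fun v => h _))
        apply sum_congr rfl
        intro e he
        rw [mem_Icc] at he
        by_cases h : e ≤ s
        · rw [if_pos (by omega), if_pos h]
          have e1 : s + 1 - (e + 1) = s - e := by omega
          have e2 : e + 1 - 1 = (e - 1) + 1 := by omega
          rw [e1, e2]
          rfl
        · rw [if_neg (by omega), if_neg h]

/-- the parity word of the letters `w` (without its first `true`), followed by `v` -/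
def pre : List ℕ → List Bool → List Bool
  | [], v => v
  | e :: w, v => List.replicate (e - 1) false ++ true :: pre w v

/-- decomposition at the first `k` ones -/
lemma Ws_FW (A k s : ℕ) {Φ : List Bool → ℝ} (h : ∀ v, 0 ≤ Φ v) :
    ∑ w ∈ FW A k, (if w.sum ≤ s then Ws (s - w.sum) (fun v => Φ (pre w v)) else 0) ≤ Ws s Φ := by
  induction k generalizing s Φ with
  | zero =>
    rw [sum_FW_zero]
    simp [pre]
  | succ k ih =>
    rw [sum_FW_succ]
    refine le_trans ?_ (Ws_first A s h)
    apply sum_le_sum
    intro e _
    by_cases h' : e ≤ s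
    · rw [if_pos h']
      refine le_trans (le_of_eq ?_) (ih (s - e) (Φ := fun v => Φ (List.replicate (e - 1) false ++ true :: v)) (fun v => h _))
      apply sum_congr rfl
      intro v _
      rw [List.sum_cons]
      by_cases h2 : e + v.sum ≤ s
      · rw [if_pos h2, if_pos (by omega)]
        have e1 : s - (e + v.sum) = s - e - v.sum := by omega
        rw [e1]
        rfl
      · rw [if_neg h2, if_neg (by omega)]
    · rw [if_neg h']
      apply le_of_eq
      apply sum_eq_zero
      intro v _
      rw [List.sum_cons, if_neg (by omega)]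

lemma ones_replicate (n : ℕ) : ones (List.replicate n false) = 0 := by
  induction n with
  | zero => rfl
  | succ n ih => rw [List.replicate_succ, ones_cons_false, ih]

lemma ones_pre (w : List ℕ) (v : List Bool) : ones (pre w v) = w.length + ones v := by
  induction w with
  | nil => simp [pre]
  | cons e w ih =>
    rw [pre, ones_append, ones_replicate, ones_cons_true, ih, List.length_cons]
    omega

lemma pre_split (w : List ℕ) (v : List Bool) : ∃ x : List Bool, true :: pre w v = x ++ true :: v := by
  induction w with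
  | nil => exact ⟨[], rfl⟩
  | cons e w ih =>
    obtain ⟨x, hx⟩ := ih
    refine ⟨true :: List.replicate (e - 1) false ++ x, ?_⟩
    rw [pre, hx]
    simp

theorem stage (h : S_Cls) : S_Stage := by
  intro A k Tl Tm t μ _hk hT g hg
  obtain ⟨-, -, hc, -⟩ := h
  have hΦ : ∀ v : List Bool, 0 ≤ g (ones (true :: v)) (cl μ (true :: v)) := fun v => (hg _ _).1
  -- termwise comparison
  have h1 : ∀ w ∈ GW A k Tl Tm, wwt w * OW (t - w.sum) (fun v => g (ones v + k) (cl μ v)) ≤
      (if w.sum ≤ t - 1 then Ws (t - 1 - w.sum) (fun v => g (ones (true :: pre w v)) (cl μ (true :: pre w v))) else 0) / 2 ^ (t - 1) +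
        2 * (wwt w * OW (t - w.sum) (fun v => if ones v < μ then 1 else 0)) := by
    intro w hw
    unfold GW at hw
    rw [mem_filter] at hw
    have hlen := (FW_props hw.1).1
    rw [if_pos (by omega)]
    have e1 : t - w.sum - 1 = t - 1 - w.sum := by omega
    have e2 : (2 : ℝ) ^ (t - 1) = 2 ^ w.sum * 2 ^ (t - 1 - w.sum) := by
      rw [← pow_add]; congr 1; omega
    have key : ∑ v ∈ words (t - 1 - w.sum), g (ones (true :: v) + k) (cl μ (true :: v)) ≤
        ∑ v ∈ words (t - 1 - w.sum), g (ones (true :: pre w v)) (cl μ (true :: pre w v)) +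
          2 * ∑ v ∈ words (t - 1 - w.sum), (if ones (true :: v) < μ then (1 : ℝ) else 0) := by
      rw [mul_sum, ← sum_add_distrib]
      refine sum_le_sum fun v _ => ?_
      by_cases hv : ones (true :: v) < μ
      · rw [if_pos hv]
        have := (hg (ones (true :: v) + k) (cl μ (true :: v))).2
        have := (hg (ones (true :: pre w v)) (cl μ (true :: pre w v))).1
        linarith
      · rw [if_neg hv]
        obtain ⟨x, hx⟩ := pre_split w v
        have h3 : cl μ (true :: pre w v) = cl μ (true :: v) := by
          rw [hx]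
          exact hc μ x (true :: v) (by omega)
        have h4 : ones (true :: pre w v) = ones (true :: v) + k := by
          rw [ones_cons_true, ones_cons_true, ones_pre, hlen]
          omega
        rw [h3, h4]
        linarith
    unfold OW wwt Ws
    rw [e1, e2, one_div, inv_pow]
    have hp1 : (0 : ℝ) < 2 ^ w.sum := by positivity
    have hp2 : (0 : ℝ) < 2 ^ (t - 1 - w.sum) := by positivity
    generalize ∑ v ∈ words (t - 1 - w.sum), g (ones (true :: v) + k) (cl μ (true :: v)) = S1 at key ⊢
    generalize ∑ v ∈ words (t - 1 - w.sum), g (ones (true :: pre w v)) (cl μ (true :: pre w v)) = S2 at key ⊢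
    generalize ∑ v ∈ words (t - 1 - w.sum), (if ones (true :: v) < μ then (1 : ℝ) else 0) = S3 at key ⊢
    generalize (2 : ℝ) ^ w.sum = P at hp1 ⊢
    generalize (2 : ℝ) ^ (t - 1 - w.sum) = Q at hp2 ⊢
    have e3 : P⁻¹ * (S1 / Q) = S1 / (P * Q) := by field_simp
    have e4 : S2 / (P * Q) + 2 * (P⁻¹ * (S3 / Q)) = (S2 + 2 * S3) / (P * Q) := by field_simp
    rw [e3, e4]
    exact div_le_div_of_nonneg_right key (by positivity)
  refine (sum_le_sum h1).trans ?_
  rw [sum_add_distrib, ← sum_div, ← mul_sum]
  refine add_le_add ?_ le_rfl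
  have h2 : OW t (fun v => g (ones v) (cl μ v)) =
      Ws (t - 1) (fun v => g (ones (true :: v)) (cl μ (true :: v))) / 2 ^ (t - 1) := rfl
  rw [h2]
  refine div_le_div_of_nonneg_right ?_ (by positivity)
  refine le_trans ?_ (Ws_FW A k (t - 1) (Φ := fun v => g (ones (true :: v)) (cl μ (true :: v))) hΦ)
  unfold GW
  apply sum_le_sum_of_subset_of_nonneg (filter_subset _ _)
  intro w _ _
  split_ifs
  · exact Ws_nonneg _ fun v => hΦ _
  · exact le_rfl

end Pool.Agent.Q150.BH
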